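import Mathlib
import Pool.Agent.H90.TFL1

set_option autoImplicit false

namespace Pool.Agent.Results.MP_2c2d16_pr.SharpAsymptotics

/-- The mean, over all circulant graphs on `n` vertices, of the distance of the Lovász number
divided by `√n` from `1` tends to `0`. -/
theorem result :
    Filter.Tendsto
      (fun n : ℕ =>
        (∑ S ∈ (Finset.Icc 1 (n / 2)).powerset,
          |sSup {r : ℝ | ∃ B : Matrix (Fin n) (Fin n) ℝ,
              B.PosSemidef ∧ B.trace = 1 ∧
              (∀ i j : Fin n,
                (SimpleGraph.fromRel
                  (fun a b : Fin n => min (b - a).val (a - b).val ∈ S)).Adj i j →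
                  B i j = 0) ∧
              r = ∑ i, ∑ j, B i j} / Real.sqrt (n : ℝ) - 1|) / (2 : ℝ) ^ (n / 2))
      Filter.atTop (nhds 0) :=
  Pool.Agent.H90.TF.final1

end Pool.Agent.Results.MP_2c2d16_pr.SharpAsymptotics
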